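import Pool.Agent.W516.KU.Defs

/-!
# The orthogonal Lie algebra of a real form and `J`: an additional commuting endomorphism
-/

set_option autoImplicit false
set_option linter.all false

namespace Pool.Agent.W21.KU

open Module Pool.Agent.W516.K3 Pool.Agent.W516.KU

/-! ### rings -/

section ring

variable {A : Type} [Ring A]

theorem one_pair {a d e : A} (h1 : a * d = -(d * a)) (h2 : a * e = -(e * a)) :
    a * (d * e) = d * e * a := by
  rw [← mul_assoc, h1, neg_mul, mul_assoc, h2, mul_neg, neg_neg, mul_assoc]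

theorem two_pair {a c d e : A} (h1 : a * d = -(d * a)) (h2 : a * e = -(e * a))
    (h3 : c * d = -(d * c)) (h4 : c * e = -(e * c)) : a * c * (d * e) = d * e * (a * c) := by
  rw [mul_assoc, one_pair h3 h4, ← mul_assoc, one_pair h1 h2, mul_assoc]

end ring

/-! ### the kernel -/

section ker

variable {H : Type} [AddCommGroup H] [Module ℝ H]

theorem ker_ne [Nontrivial H] {ι : Type} [DecidableEq ι] (s f : ι → Module.End ℝ H)
    (hs2 : ∀ i, s i * s i = -1) (hcomm : ∀ i k, s i * s k = s k * s i)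
    (hf : ∀ i w, f i w = 0 → w = 0) (hff : ∀ i, f i * s i = -(s i * f i))
    (hfk : ∀ i k, i ≠ k → f i * s k = s k * f i) :
    ∀ (m : ℕ) (S : Finset ι), S.card = 2 * m → ∃ w : H, w ≠ 0 ∧ (∑ i ∈ S, s i) w = 0 := by
  intro m
  induction m with
  | zero =>
    intro S hS
    rw [mul_zero, Finset.card_eq_zero] at hS
    subst hS
    obtain ⟨w, hw⟩ := exists_ne (0 : H)
    exact ⟨w, hw, by simp⟩
  | succ m ih =>
    intro S hS
    obtain ⟨a, S', ha, rfl, hS'⟩ := Finset.card_eq_succ.1 (show S.card = (2 * m + 1) + 1 by omega)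
    obtain ⟨b, S'', hb, rfl, hS''⟩ := Finset.card_eq_succ.1 hS'
    obtain ⟨w, hw, hw0⟩ := ih S'' hS''
    have hab : a ≠ b := fun h => ha (by rw [h]; exact Finset.mem_insert_self _ _)
    have haS : ∀ k ∈ S'', a ≠ k := fun k hk h => ha (by
      rw [h]; exact Finset.mem_insert_of_mem hk)
    set t := s a * s b with ht
    have htt : t * t = 1 := by
      have : t * t = (s a * s a) * (s b * s b) := by
        rw [ht, mul_assoc, ← mul_assoc (s b), hcomm b a, mul_assoc, mul_assoc, ← mul_assoc]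
      rw [this, hs2, hs2]
      simp
    have hct : ∀ k, t * s k = s k * t := by
      intro k
      rw [ht, mul_assoc, hcomm b k, ← mul_assoc, hcomm a k, mul_assoc]
    have hctS : t * (∑ i ∈ S'', s i) = (∑ i ∈ S'', s i) * t := by
      rw [Finset.mul_sum, Finset.sum_mul]
      exact Finset.sum_congr rfl fun k _ => hct k
    have hcfS : f a * (∑ i ∈ S'', s i) = (∑ i ∈ S'', s i) * f a := by
      rw [Finset.mul_sum, Finset.sum_mul]
      exact Finset.sum_congr rfl fun k hk => hfk a k (haS k hk)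
    -- a vector with `t w' = w'`
    have key : ∃ w' : H, w' ≠ 0 ∧ (∑ i ∈ S'', s i) w' = 0 ∧ t w' = w' := by
      by_cases h : w + t w = 0
      · refine ⟨f a w, fun h1 => hw (hf a w h1), ?_, ?_⟩
        · have := congrArg (fun g : Module.End ℝ H => g w) hcfS
          simp only [Module.End.mul_apply] at this
          rw [← this, hw0, map_zero]
        · have h1 : t * f a = -(f a * t) := by
            have e1 := hff a
            have e2 := hfk a b hab
            have e3 : f a * t = -(t * f a) := by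
              rw [ht, ← mul_assoc, e1, neg_mul, mul_assoc, e2, mul_assoc]
            rw [e3, neg_neg]
          have h2 := congrArg (fun g : Module.End ℝ H => g w) h1
          simp only [Module.End.mul_apply, LinearMap.neg_apply] at h2
          rw [h2]
          have h3 : t w = -w := (neg_eq_of_add_eq_zero_right h).symm
          rw [h3, map_neg, neg_neg]
      · refine ⟨w + t w, h, ?_, ?_⟩
        · have := congrArg (fun g : Module.End ℝ H => g w) hctS
          simp only [Module.End.mul_apply] at this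
          rw [map_add, ← this, hw0, map_zero, add_zero]
        · have := congrArg (fun g : Module.End ℝ H => g w) htt
          simp only [Module.End.mul_apply, Module.End.one_apply] at this
          rw [map_add, this, add_comm]
    obtain ⟨w', hw', h1, h2⟩ := key
    refine ⟨w', hw', ?_⟩
    rw [Finset.sum_insert ha, Finset.sum_insert hb, LinearMap.add_apply, LinearMap.add_apply, h1,
      add_zero]
    have h3 := congrArg (fun g : Module.End ℝ H => g (s b w')) (hs2 a)
    simp only [Module.End.mul_apply, LinearMap.neg_apply, Module.End.one_apply] at h3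
    have h4 : s a (s b w') = w' := h2
    rw [h4] at h3
    rw [h3, neg_add_cancel]

theorem exists_E [FiniteDimensional ℝ H] (j : Module.End ℝ H) {w : H} (hw : w ≠ 0)
    (hjw : j w = 0) : ∃ E : Module.End ℝ H, E ≠ 0 ∧ j * E = 0 ∧ E * j = 0 ∧
      ∀ Y : Module.End ℝ H, Y * j = j * Y → Y * E = E * Y := by
  classical
  set m := minpoly ℝ j with hm
  have hint : IsIntegral ℝ j := Algebra.IsIntegral.isIntegral j
  have hm0 : m ≠ 0 := minpoly.ne_zero hint
  have haeval : Polynomial.aeval j m = 0 := minpoly.aeval ℝ j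
  have hdecomp := Polynomial.divX_mul_X_add m
  have hc0 : m.coeff 0 = 0 := by
    have h1 : (Polynomial.aeval j (m.divX * Polynomial.X + Polynomial.C (m.coeff 0))) w = 0 := by
      rw [hdecomp, haeval]
      rfl
    rw [map_add, map_mul, Polynomial.aeval_X, Polynomial.aeval_C, LinearMap.add_apply,
      Module.End.mul_apply, hjw, map_zero, zero_add, Module.algebraMap_end_apply] at h1
    exact (smul_eq_zero.1 h1).resolve_right hw
  rw [hc0, map_zero, add_zero] at hdecomp
  refine ⟨Polynomial.aeval j m.divX, ?_, ?_, ?_, ?_⟩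
  · intro h0
    have hdvd : m ∣ m.divX := minpoly.dvd ℝ j h0
    have hdX : m.divX ≠ 0 := by
      intro h
      rw [h, zero_mul] at hdecomp
      exact hm0 hdecomp.symm
    have h1 := Polynomial.natDegree_le_of_dvd hdvd hdX
    have h2 : m.natDegree = m.divX.natDegree + 1 := by
      conv_lhs => rw [← hdecomp]
      rw [Polynomial.natDegree_mul_X hdX]
    omega
  · have : Polynomial.aeval j (Polynomial.X * m.divX) = 0 := by
      rw [mul_comm, hdecomp, haeval]
    rwa [map_mul, Polynomial.aeval_X] at this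
  · have : Polynomial.aeval j (m.divX * Polynomial.X) = 0 := by
      rw [hdecomp, haeval]
    rwa [map_mul, Polynomial.aeval_X] at this
  · intro Y hY
    have hY' : Commute Y j := hY
    have hall : ∀ p : Polynomial ℝ, Commute Y (Polynomial.aeval j p) := by
      intro p
      induction p using Polynomial.induction_on' with
      | add p q hp hq =>
        rw [map_add]
        exact hp.add_right hq
      | monomial n a =>
        rw [Polynomial.aeval_monomial]
        have h1 : Commute Y (algebraMap ℝ (Module.End ℝ H) a) := (Algebra.commutes a Y).symm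
        exact h1.mul_right (hY'.pow_right n)
    exact hall _

end ker

/-! ### Clifford relations -/

section cliff

variable {T H : Type} [AddCommGroup T] [Module ℝ T] [AddCommGroup H] [Module ℝ H]
  {b : T →ₗ[ℝ] T →ₗ[ℝ] ℝ} {J : Module.End ℝ T} {γ : T →ₗ[ℝ] Module.End ℝ H}
  (hb : Herm b J)
  (hγ : ∀ u v, γ u * γ v + γ v * γ u = (2 * b u v) • (1 : Module.End ℝ H))

include hγ in
theorem anti {u v : T} (h : b u v = 0) : γ u * γ v = -(γ v * γ u) := by
  have h1 := hγ u v
  rw [h, mul_zero, zero_smul] at h1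
  exact eq_neg_of_add_eq_zero_left h1

include hγ in
theorem gsq (u : T) : γ u * γ u = (b u u) • (1 : Module.End ℝ H) := by
  have h1 := hγ u u
  have h2 : (2 : ℝ) • (γ u * γ u) = (2 : ℝ) • ((b u u) • (1 : Module.End ℝ H)) := by
    rw [two_smul, h1, smul_smul]
  exact smul_right_injective _ (two_ne_zero) h2

include hγ in
theorem swap (u v : T) : γ u * γ v = (2 * b u v) • (1 : Module.End ℝ H) - γ v * γ u :=
  eq_sub_of_add_eq (hγ u v)

include hγ in
/-- the commutator of a product of two vectors with a vector -/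
theorem comm2 (a c t : T) : γ a * γ c * γ t - γ t * (γ a * γ c) =
    (2 * b c t) • γ a - (2 * b a t) • γ c := by
  have h1 : γ a * γ c * γ t = (2 * b c t) • γ a - γ a * γ t * γ c := by
    rw [mul_assoc, swap hγ c t, mul_sub, mul_smul_comm, mul_one, mul_assoc]
  have h2 : γ a * γ t * γ c = (2 * b a t) • γ c - γ t * (γ a * γ c) := by
    rw [swap hγ a t, sub_mul, smul_mul_assoc, one_mul, mul_assoc]
  rw [h1, h2]
  abel

/-- commutator of a lift with a product of two vectors -/
theorem lift2 {Z : Module.End ℝ H} {x : Module.End ℝ T} (hZ : IsLift γ Z x) (a c : T) :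
    Z * (γ a * γ c) - γ a * γ c * Z = γ (x a) * γ c + γ a * γ (x c) := by
  have h1 := hZ a
  have h2 := hZ c
  rw [← h1, ← h2, sub_mul, mul_sub]
  simp only [mul_assoc]
  abel

end cliff

/-! ### orthogonal bases -/

/-- an orthogonal basis of the real form -/
structure Dat {T : Type} [AddCommGroup T] [Module ℝ T] (b : T →ₗ[ℝ] T →ₗ[ℝ] ℝ)
    (J : Module.End ℝ T) (V₀ : Submodule ℝ T) {ι : Type} [Fintype ι] (v : ι → T) (β : ι → ℝ) :
    Prop where
  mem : ∀ i, v i ∈ V₀
  ne : ∀ i, β i ≠ 0
  diag : ∀ i, b (v i) (v i) = β i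
  orth : ∀ i k, i ≠ k → b (v i) (v k) = 0
  oJ : ∀ i k, b (v i) (J (v k)) = 0
  exp0 : ∀ t ∈ V₀, t = ∑ i, ((β i)⁻¹ * b (v i) t) • v i
  exp : ∀ t, t = ∑ i, ((β i)⁻¹ * b (v i) t) • v i + ∑ i, ((β i)⁻¹ * b (J (v i)) t) • J (v i)

theorem exists_dat {T : Type} [AddCommGroup T] [Module ℝ T] [FiniteDimensional ℝ T]
    {b : T →ₗ[ℝ] T →ₗ[ℝ] ℝ} {J : Module.End ℝ T} (hb : Herm b J) (V₀ : Submodule ℝ T)
    (hV : IsCompl V₀ (V₀.map J)) (hVJ : ∀ u ∈ V₀, ∀ v ∈ V₀, b u (J v) = 0) :
    ∃ (v : Fin (finrank ℝ V₀) → T) (β : Fin (finrank ℝ V₀) → ℝ), Dat b J V₀ v β := by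
  classical
  have : Invertible (2 : ℝ) := invertibleOfNonzero two_ne_zero
  let B : LinearMap.BilinForm ℝ V₀ := (b.domRestrict₁₂ V₀ V₀)
  have hB : ∀ u v : V₀, B u v = b u v := fun u v => rfl
  have hBs : LinearMap.IsSymm B := ⟨fun u v => hb.symm _ _⟩
  obtain ⟨e, he⟩ := LinearMap.BilinForm.exists_orthogonal_basis (B := B) hBs
  have horth : ∀ i k, i ≠ k → b (e i) (e k) = 0 := fun i k hik => he hik
  have hsplit : ∀ t : T, ∃ t₀ ∈ V₀, ∃ t₁ ∈ V₀, t = t₀ + J t₁ := by
    intro t
    have ht : t ∈ V₀ ⊔ V₀.map J := by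
      rw [hV.sup_eq_top]
      trivial
    obtain ⟨t₀, h0, y, hy, rfl⟩ := Submodule.mem_sup.1 ht
    obtain ⟨t₁, h1, rfl⟩ := hy
    exact ⟨t₀, h0, t₁, h1, rfl⟩
  have hexpe : ∀ t : V₀, ∀ i, b (e i) t = e.repr t i * b (e i) (e i) := by
    intro t i
    conv_lhs => rw [← e.sum_repr t]
    rw [Submodule.coe_sum, map_sum, Finset.sum_eq_single i]
    · rw [Submodule.coe_smul, map_smul, smul_eq_mul]
    · intro k _ hk
      rw [Submodule.coe_smul, map_smul, horth i k hk.symm, smul_zero]
    · intro h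
      exact absurd (Finset.mem_univ i) h
  have hne : ∀ i, b (e i) (e i) ≠ 0 := by
    intro i hi
    have h0 : (e i : T) = 0 := by
      apply hb.nondeg
      intro t
      obtain ⟨t₀, h0, t₁, h1, rfl⟩ := hsplit t
      rw [map_add, hVJ _ (e i).2 _ h1, add_zero]
      have := hexpe ⟨t₀, h0⟩ i
      rw [hi, mul_zero] at this
      exact this
    exact e.ne_zero i (Subtype.ext h0)
  have hexp0 : ∀ t ∈ V₀, t = ∑ i, ((b (e i) (e i))⁻¹ * b (e i) t) • (e i : T) := by
    intro t ht
    have h1 := congrArg (fun y : V₀ => (y : T)) (e.sum_repr ⟨t, ht⟩)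
    simp only [Submodule.coe_sum, Submodule.coe_smul] at h1
    rw [← h1]
    refine Finset.sum_congr rfl fun i _ => ?_
    rw [h1]
    congr 1
    have h2 := hexpe ⟨t, ht⟩ i
    rw [show b (e i) t = e.repr ⟨t, ht⟩ i * b (e i) (e i) from h2, mul_comm (e.repr _ i),
      inv_mul_cancel_left₀ (hne i)]
  refine ⟨fun i => e i, fun i => b (e i) (e i), fun i => (e i).2, hne, fun _ => rfl, horth,
    fun i k => hVJ _ (e i).2 _ (e k).2, hexp0, ?_⟩
  intro t
  obtain ⟨t₀, h0, t₁, h1, rfl⟩ := hsplit t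
  have e1 : ∀ i, b (e i) (t₀ + J t₁) = b (e i) t₀ := fun i => by
    rw [map_add, hVJ _ (e i).2 _ h1, add_zero]
  have e2 : ∀ i, b (J (e i)) (t₀ + J t₁) = b (e i) t₁ := fun i => by
    rw [map_add, hb.isom, hb.symm _ t₀, hVJ _ h0 _ (e i).2, zero_add]
  simp only [e1, e2]
  rw [← hexp0 t₀ h0]
  congr 1
  conv_lhs => rw [hexp0 t₁ h1]
  rw [map_sum]
  refine Finset.sum_congr rfl fun i _ => ?_
  rw [map_smul]

/-! ### the volume element -/

section vol

variable {T H : Type} [AddCommGroup T] [Module ℝ T] [AddCommGroup H] [Module ℝ H]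
  {b : T →ₗ[ℝ] T →ₗ[ℝ] ℝ} {J : Module.End ℝ T} {γ : T →ₗ[ℝ] Module.End ℝ H}
  (hb : Herm b J)
  (hγ : ∀ u v, γ u * γ v + γ v * γ u = (2 * b u v) • (1 : Module.End ℝ H))
  {V₀ : Submodule ℝ T} {ι : Type} [Fintype ι] [DecidableEq ι] {v : ι → T} {β : ι → ℝ}
  (D : Dat b J V₀ v β)

include hb hγ D in
theorem vol_aux (S : Finset ι) : ∃ p p' : Module.End ℝ H, p' * p = 1 ∧
    (∀ t, (∀ i ∈ S, b (v i) t = 0) → γ t * p = (-1 : ℝ) ^ S.card • (p * γ t)) ∧
    (∀ k ∈ S, γ (v k) * p = -((-1 : ℝ) ^ S.card • (p * γ (v k)))) ∧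
    ∀ Y : Module.End ℝ H, (∀ t, Y * γ t = γ t * Y) → Y * p = p * Y := by
  induction S using Finset.induction_on with
  | empty =>
    refine ⟨1, 1, by simp, fun t _ => by simp, fun k hk => absurd hk (Finset.notMem_empty k),
      fun Y _ => by simp⟩
  | insert a S ha ih =>
    obtain ⟨p, p', h1, h2, h3, h4⟩ := ih
    have hva : γ (v a) * γ (v a) = (β a) • (1 : Module.End ℝ H) := by
      rw [gsq hγ, D.diag]
    have haS : ∀ i ∈ S, b (v i) (v a) = 0 := fun i hi =>
      D.orth i a (fun h => ha (h ▸ hi))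
    have h2a := h2 (v a) haS
    refine ⟨γ (v a) * p, (β a)⁻¹ • (p' * γ (v a)), ?_, ?_, ?_, ?_⟩
    · rw [smul_mul_assoc, mul_assoc, ← mul_assoc (γ (v a)), hva, smul_mul_assoc, one_mul,
        mul_smul_comm, h1, smul_smul, inv_mul_cancel₀ (D.ne a), one_smul]
    · intro t ht
      have e1 : γ t * γ (v a) = -(γ (v a) * γ t) := by
        refine anti hγ ?_
        rw [hb.symm]
        exact ht a (Finset.mem_insert_self _ _)
      have e2 := h2 t fun i hi => ht i (Finset.mem_insert_of_mem hi)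
      rw [← mul_assoc, e1, neg_mul, mul_assoc, e2, Finset.card_insert_of_notMem ha, pow_succ,
        mul_smul_comm, mul_assoc, mul_neg_one, neg_smul]
    · intro k hk
      rw [Finset.card_insert_of_notMem ha, pow_succ, mul_neg_one, neg_smul, neg_neg]
      rcases Finset.mem_insert.1 hk with rfl | hk
      · conv_lhs => rw [h2a]
        rw [mul_smul_comm, mul_assoc]
      · have hka : k ≠ a := fun h => ha (h ▸ hk)
        rw [← mul_assoc, anti hγ (D.orth k a hka), neg_mul, mul_assoc, h3 k hk, mul_neg, neg_neg,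
          mul_smul_comm, mul_assoc]
    · intro Y hY
      rw [← mul_assoc, hY, mul_assoc, h4 Y hY, mul_assoc]

include hb hγ D in
theorem exists_vol (hV : IsCompl V₀ (V₀.map J)) (hc : Even (Fintype.card ι)) :
    ∃ p p' : Module.End ℝ H, p' * p = 1 ∧
    (∀ t ∈ V₀, γ t * p = -(p * γ t)) ∧ (∀ t ∈ V₀, γ (J t) * p = p * γ (J t)) ∧
    ∀ Y : Module.End ℝ H, (∀ t, Y * γ t = γ t * Y) → Y * p = p * Y := by
  obtain ⟨p, p', h1, h2, h3, h4⟩ := vol_aux hb hγ D Finset.univ
  rw [Finset.card_univ, hc.neg_one_pow] at h2 h3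
  simp only [one_smul] at h2 h3
  refine ⟨p, p', h1, ?_, ?_, h4⟩
  · intro t ht
    rw [D.exp0 t ht, map_sum, Finset.sum_mul, Finset.mul_sum, ← Finset.sum_neg_distrib]
    refine Finset.sum_congr rfl fun i _ => ?_
    rw [map_smul, smul_mul_assoc, h3 i (Finset.mem_univ i), mul_smul_comm, smul_neg]
  · intro t ht
    refine h2 _ fun i _ => ?_
    rw [D.exp0 t ht, map_sum, map_sum]
    refine Finset.sum_eq_zero fun k _ => ?_
    rw [map_smul, map_smul, D.oJ, smul_zero]

/-- the products -/
def ze (γ : T →ₗ[ℝ] Module.End ℝ H) (J : Module.End ℝ T) (v : ι → T) (i : ι) : Module.End ℝ H :=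
  γ (v i) * γ (J (v i))

/-- the normalised products -/
noncomputable def se (γ : T →ₗ[ℝ] Module.End ℝ H) (J : Module.End ℝ T) (v : ι → T) (β : ι → ℝ)
    (i : ι) : Module.End ℝ H := (β i)⁻¹ • ze γ J v i

include hb D in
theorem oJ' (i k : ι) : b (J (v i)) (v k) = 0 := by
  rw [hb.symm, D.oJ]

include hb hγ D in
theorem ze_sq (i : ι) : ze γ J v i * ze γ J v i = -((β i * β i) • (1 : Module.End ℝ H)) := by
  unfold ze
  have h1 : γ (v i) * γ (J (v i)) = -(γ (J (v i)) * γ (v i)) := anti hγ (D.oJ i i)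
  have h2 : γ (J (v i)) * γ (J (v i)) = (β i) • (1 : Module.End ℝ H) := by
    rw [gsq hγ, hb.isom, D.diag]
  have h3 : γ (v i) * γ (v i) = (β i) • (1 : Module.End ℝ H) := by
    rw [gsq hγ, D.diag]
  calc γ (v i) * γ (J (v i)) * (γ (v i) * γ (J (v i)))
      = γ (v i) * (γ (J (v i)) * γ (v i)) * γ (J (v i)) := by simp only [mul_assoc]
    _ = -(γ (v i) * γ (v i) * (γ (J (v i)) * γ (J (v i)))) := by
        rw [show γ (J (v i)) * γ (v i) = -(γ (v i) * γ (J (v i))) by rw [h1, neg_neg]]
        simp only [mul_assoc, mul_neg, neg_mul]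
    _ = _ := by
        rw [h2, h3, smul_mul_assoc, one_mul, smul_smul]

include hb hγ D in
theorem se_sq (i : ι) : se γ J v β i * se γ J v β i = -1 := by
  unfold se
  rw [smul_mul_assoc, mul_smul_comm, ze_sq hb hγ D, smul_neg, smul_neg, smul_smul, smul_smul]
  have : (β i)⁻¹ * ((β i)⁻¹ * (β i * β i)) = 1 := by
    have := D.ne i
    field_simp
  rw [mul_assoc, this, one_smul]

include hb hγ D in
theorem ze_comm (i k : ι) : ze γ J v i * ze γ J v k = ze γ J v k * ze γ J v i := by
  by_cases h : i = k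
  · rw [h]
  · unfold ze
    refine two_pair (anti hγ (D.orth i k h)) (anti hγ (D.oJ i k)) (anti hγ (oJ' hb D i k))
      (anti hγ ?_)
    rw [hb.isom]
    exact D.orth i k h

include hb hγ D in
theorem se_comm (i k : ι) : se γ J v β i * se γ J v β k = se γ J v β k * se γ J v β i := by
  unfold se
  rw [smul_mul_assoc, mul_smul_comm, smul_mul_assoc, mul_smul_comm, ze_comm hb hγ D, smul_comm]

include hb hγ D in
theorem f_se (i : ι) : γ (v i) * se γ J v β i = -(se γ J v β i * γ (v i)) := by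
  unfold se ze
  have h1 : γ (v i) * γ (J (v i)) = -(γ (J (v i)) * γ (v i)) := anti hγ (D.oJ i i)
  rw [mul_smul_comm, smul_mul_assoc, ← smul_neg]
  congr 1
  conv_lhs => rw [h1]
  rw [mul_neg, mul_assoc]

include hb hγ D in
theorem f_se' (i k : ι) (h : i ≠ k) : γ (v i) * se γ J v β k = se γ J v β k * γ (v i) := by
  unfold se ze
  rw [mul_smul_comm, smul_mul_assoc, one_pair (anti hγ (D.orth i k h)) (anti hγ (D.oJ i k))]

include hγ D in
theorem f_inj (i : ι) (w : H) (h : γ (v i) w = 0) : w = 0 := by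
  have h1 := congrArg (fun g : Module.End ℝ H => g w) (gsq hγ (v i))
  simp only [Module.End.mul_apply, LinearMap.smul_apply, Module.End.one_apply] at h1
  rw [h, map_zero, D.diag] at h1
  exact (smul_eq_zero.1 h1.symm).resolve_left (D.ne i)

/-- the element `j` -/
noncomputable def je (γ : T →ₗ[ℝ] Module.End ℝ H) (J : Module.End ℝ T) (v : ι → T) (β : ι → ℝ) :
    Module.End ℝ H := ∑ i, se γ J v β i

include hb hγ D in
theorem je_lift (t : T) : je γ J v β * γ t - γ t * je γ J v β = (-2 : ℝ) • γ (J t) := by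
  have h1 : J t = ∑ i, ((β i)⁻¹ * b (v i) t) • J (v i) -
      ∑ i, ((β i)⁻¹ * b (J (v i)) t) • v i := by
    conv_lhs => rw [D.exp t]
    rw [map_add, map_sum, map_sum, sub_eq_add_neg, ← Finset.sum_neg_distrib]
    congr 1
    · exact Finset.sum_congr rfl fun i _ => map_smul _ _ _
    · refine Finset.sum_congr rfl fun i _ => ?_
      have h2 : J (J (v i)) = -v i := by
        have := congrArg (fun g : Module.End ℝ T => g (v i)) hb.sq
        simpa using this
      rw [map_smul, h2, smul_neg]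
  rw [h1, map_sub, map_sum, map_sum, smul_sub, Finset.smul_sum, Finset.smul_sum,
    ← Finset.sum_sub_distrib]
  unfold je
  rw [Finset.sum_mul, Finset.mul_sum, ← Finset.sum_sub_distrib]
  refine Finset.sum_congr rfl fun i _ => ?_
  unfold se ze
  rw [smul_mul_assoc, mul_smul_comm, ← smul_sub, comm2 hγ, smul_sub, map_smul, map_smul]
  simp only [smul_smul]
  rw [sub_eq_add_neg, sub_eq_add_neg, add_comm]
  congr 1
  · rw [← neg_smul]
    congr 1
    ring
  · rw [← neg_smul]
    congr 1
    ring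

/-- the lift of an element preserving the real form -/
noncomputable def zz (γ : T →ₗ[ℝ] Module.End ℝ H) (J : Module.End ℝ T) (v : ι → T) (β : ι → ℝ)
    (x : Module.End ℝ T) : Module.End ℝ H :=
  (1 / 4 : ℝ) • ∑ i, (β i)⁻¹ • (γ (x (v i)) * γ (v i) + γ (x (J (v i))) * γ (J (v i)))

include hb hγ D in
theorem zz_lift {x : Module.End ℝ T} (hx : ∀ u v, b (x u) v + b u (x v) = 0) :
    IsLift γ (zz γ J v β x) x := by
  intro t
  have e0 : ∀ t, γ t = ∑ i, ((β i)⁻¹ * b (v i) t) • γ (v i) +
      ∑ i, ((β i)⁻¹ * b (J (v i)) t) • γ (J (v i)) := by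
    intro t
    conv_lhs => rw [D.exp t]
    rw [map_add, map_sum, map_sum]
    simp only [map_smul]
  have e1 : γ (x t) = ∑ i, ((β i)⁻¹ * b (v i) t) • γ (x (v i)) +
      ∑ i, ((β i)⁻¹ * b (J (v i)) t) • γ (x (J (v i))) := by
    conv_lhs => rw [D.exp t]
    rw [map_add, map_add, map_sum, map_sum, map_sum, map_sum]
    simp only [map_smul]
  have e2 : γ (x t) = -(∑ i, ((β i)⁻¹ * b (x (v i)) t) • γ (v i)) -
      ∑ i, ((β i)⁻¹ * b (x (J (v i))) t) • γ (J (v i)) := by
    rw [e0 (x t), sub_eq_add_neg, ← Finset.sum_neg_distrib, ← Finset.sum_neg_distrib]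
    congr 1
    · refine Finset.sum_congr rfl fun i _ => ?_
      rw [← neg_smul]
      congr 1
      have := hx (v i) t
      linear_combination (β i)⁻¹ * this
    · refine Finset.sum_congr rfl fun i _ => ?_
      rw [← neg_smul]
      congr 1
      have := hx (J (v i)) t
      linear_combination (β i)⁻¹ * this
  have e3 : zz γ J v β x * γ t - γ t * zz γ J v β x =
      (1 / 2 : ℝ) • ((∑ i, ((β i)⁻¹ * b (v i) t) • γ (x (v i)) +
      ∑ i, ((β i)⁻¹ * b (J (v i)) t) • γ (x (J (v i)))) +
      (-(∑ i, ((β i)⁻¹ * b (x (v i)) t) • γ (v i)) -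
      ∑ i, ((β i)⁻¹ * b (x (J (v i))) t) • γ (J (v i)))) := by
    unfold zz
    rw [smul_mul_assoc, mul_smul_comm, ← smul_sub, Finset.sum_mul, Finset.mul_sum,
      ← Finset.sum_sub_distrib, ← Finset.sum_neg_distrib, ← Finset.sum_sub_distrib,
      ← Finset.sum_add_distrib, ← Finset.sum_add_distrib, Finset.smul_sum, Finset.smul_sum]
    refine Finset.sum_congr rfl fun i _ => ?_
    have h1 := comm2 hγ (x (v i)) (v i) t
    have h2 := comm2 hγ (x (J (v i))) (J (v i)) t
    have h3 : (β i)⁻¹ • (γ (x (v i)) * γ (v i) + γ (x (J (v i))) * γ (J (v i))) * γ t -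
        γ t * (β i)⁻¹ • (γ (x (v i)) * γ (v i) + γ (x (J (v i))) * γ (J (v i))) =
        (β i)⁻¹ • ((γ (x (v i)) * γ (v i) * γ t - γ t * (γ (x (v i)) * γ (v i))) +
          (γ (x (J (v i))) * γ (J (v i)) * γ t - γ t * (γ (x (J (v i))) * γ (J (v i))))) := by
      rw [smul_mul_assoc, mul_smul_comm, ← smul_sub, add_mul, mul_add]
      congr 1
      abel
    rw [h3, h1, h2]
    module
  rw [e3, ← e1, ← e2, ← two_smul ℝ (γ (x t)), smul_smul]
  norm_num

include hb hγ D in
theorem zz_vol {x : Module.End ℝ T} (hxV : ∀ t ∈ V₀, x t ∈ V₀) (hxJ : ∀ t, x (J t) = J (x t))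
    {p : Module.End ℝ H} (h1 : ∀ t ∈ V₀, γ t * p = -(p * γ t))
    (h2 : ∀ t ∈ V₀, γ (J t) * p = p * γ (J t)) :
    zz γ J v β x * p = p * zz γ J v β x := by
  unfold zz
  rw [smul_mul_assoc, mul_smul_comm, Finset.sum_mul, Finset.mul_sum]
  congr 1
  refine Finset.sum_congr rfl fun i _ => ?_
  rw [smul_mul_assoc, mul_smul_comm, add_mul, mul_add]
  congr 2
  · rw [mul_assoc, h1 _ (D.mem i), mul_neg, ← mul_assoc, h1 _ (hxV _ (D.mem i)), neg_mul, neg_neg,
      mul_assoc]
  · rw [hxJ, mul_assoc, h2 _ (D.mem i), ← mul_assoc, h2 _ (hxV _ (D.mem i)), mul_assoc]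

include hb hγ D in
/-- the commutator with `j` -/
theorem lift_je {x : Module.End ℝ T} {Z : Module.End ℝ H} (hZ : IsLift γ Z x)
    (hx : ∀ u v, b (x u) v + b u (x v) = 0)
    (hxV : ∀ t ∈ V₀, x t ∈ V₀) (hxJ : ∀ t, x (J t) = J (x t)) :
    Z * je γ J v β = je γ J v β * Z := by
  have h1 : Z * je γ J v β - je γ J v β * Z =
      ∑ i, (β i)⁻¹ • (γ (x (v i)) * γ (J (v i)) + γ (v i) * γ (J (x (v i)))) := by
    unfold je
    rw [Finset.mul_sum, Finset.sum_mul, ← Finset.sum_sub_distrib]
    refine Finset.sum_congr rfl fun i _ => ?_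
    unfold se ze
    rw [mul_smul_comm, smul_mul_assoc, ← smul_sub, lift2 hZ, hxJ]
  have h2 : ∀ i, x (v i) = ∑ k, ((β k)⁻¹ * b (v k) (x (v i))) • v k := fun i =>
    D.exp0 _ (hxV _ (D.mem i))
  have h3 : ∑ i, (β i)⁻¹ • (γ (x (v i)) * γ (J (v i))) =
      ∑ i, ∑ k, ((β i)⁻¹ * ((β k)⁻¹ * b (v k) (x (v i)))) • (γ (v k) * γ (J (v i))) := by
    refine Finset.sum_congr rfl fun i _ => ?_
    conv_lhs => rw [h2 i]
    rw [map_sum, Finset.sum_mul, Finset.smul_sum]
    refine Finset.sum_congr rfl fun k _ => ?_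
    rw [map_smul, smul_mul_assoc, smul_smul]
  have h4 : ∑ i, (β i)⁻¹ • (γ (v i) * γ (J (x (v i)))) =
      ∑ i, ∑ k, ((β i)⁻¹ * ((β k)⁻¹ * b (v k) (x (v i)))) • (γ (v i) * γ (J (v k))) := by
    refine Finset.sum_congr rfl fun i _ => ?_
    conv_lhs => rw [h2 i]
    rw [map_sum, map_sum, Finset.mul_sum, Finset.smul_sum]
    refine Finset.sum_congr rfl fun k _ => ?_
    rw [map_smul, map_smul, mul_smul_comm, smul_smul]
  have h5 : Z * je γ J v β - je γ J v β * Z = 0 := by
    rw [h1]
    simp only [smul_add]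
    rw [Finset.sum_add_distrib, h3, h4, Finset.sum_comm, ← Finset.sum_add_distrib]
    refine Finset.sum_eq_zero fun i _ => ?_
    rw [← Finset.sum_add_distrib]
    refine Finset.sum_eq_zero fun k _ => ?_
    rw [← add_smul]
    have h6 : b (v i) (x (v k)) = -b (v k) (x (v i)) := by
      have := hx (v i) (v k)
      rw [hb.symm (x (v i))] at this
      linear_combination this
    rw [h6]
    have : (β k)⁻¹ * ((β i)⁻¹ * -b (v k) (x (v i))) + (β i)⁻¹ * ((β k)⁻¹ * b (v k) (x (v i))) = 0 := by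
      ring
    rw [this, zero_smul]
  exact sub_eq_zero.1 h5

end vol

theorem T_CLB : S_CLB := by
  intro T H _ _ _ _ _ _ _ _ b J γ hb hγ V₀ hV hVJ heven
  classical
  obtain ⟨v, β, D⟩ := exists_dat hb V₀ hV hVJ
  obtain ⟨p, p', hp, hp1, hp2, hp3⟩ := exists_vol hb hγ D hV (by
    rw [Fintype.card_fin]
    exact heven)
  obtain ⟨m, hm⟩ := heven
  obtain ⟨w, hw, hjw⟩ := ker_ne (se γ J v β) (fun i => γ (v i)) (se_sq hb hγ D) (se_comm hb hγ D)
    (fun i w => f_inj hγ D i w) (f_se hb hγ D) (f_se' hb hγ D) m Finset.univ (by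
      rw [Finset.card_univ, Fintype.card_fin]
      omega)
  obtain ⟨E, hE0, hjE, hEj, hE⟩ := exists_E (je γ J v β) hw hjw
  -- p anticommutes with the products
  have hpz : ∀ i, ze γ J v i * p = -(p * ze γ J v i) := by
    intro i
    unfold ze
    rw [mul_assoc, hp2 _ (D.mem i), ← mul_assoc, hp1 _ (D.mem i), neg_mul, mul_assoc]
  have hpj : je γ J v β * p = -(p * je γ J v β) := by
    unfold je
    rw [Finset.sum_mul, Finset.mul_sum, ← Finset.sum_neg_distrib]
    refine Finset.sum_congr rfl fun i _ => ?_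
    unfold se
    rw [smul_mul_assoc, hpz, mul_smul_comm, smul_neg]
  have hzj : ∀ i, ze γ J v i * je γ J v β = je γ J v β * ze γ J v i := by
    intro i
    unfold je
    rw [Finset.sum_mul, Finset.mul_sum]
    refine Finset.sum_congr rfl fun k _ => ?_
    unfold se
    rw [smul_mul_assoc, mul_smul_comm, ze_comm hb hγ D]
  refine ⟨p * E, ?_, ?_⟩
  · rintro Z x hZ hx hxJ ⟨c, hc⟩
    have hJskew : ∀ u v, b (J u) v + b u (J v) = 0 := by
      intro u v
      have h1 : J (J v) = -v := by
        have := congrArg (fun g : Module.End ℝ T => g v) hb.sq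
        simpa using this
      have h2 := hb.isom u (J v)
      rw [h1, map_neg] at h2
      linear_combination -h2
    have hx' : ∀ u v, b ((x - c • J) u) v + b u ((x - c • J) v) = 0 := by
      intro u v
      simp only [LinearMap.sub_apply, LinearMap.smul_apply, map_sub, map_smul, smul_eq_mul]
      linear_combination hx u v - c * hJskew u v
    have hxJ' : ∀ t, (x - c • J) (J t) = J ((x - c • J) t) := by
      intro t
      have := congrArg (fun g : Module.End ℝ T => g t) hxJ
      simp only [Module.End.mul_apply] at this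
      simp only [LinearMap.sub_apply, LinearMap.smul_apply, map_sub, map_smul, this]
    have hZ' : IsLift γ (Z + (c / 2) • je γ J v β) (x - c • J) := by
      intro t
      rw [add_mul, mul_add, smul_mul_assoc, mul_smul_comm, add_sub_add_comm, ← smul_sub,
        je_lift hb hγ D, hZ, smul_smul, LinearMap.sub_apply, LinearMap.smul_apply, map_sub,
        map_smul]
      rw [show c / 2 * (-2 : ℝ) = -c by ring, neg_smul, sub_eq_add_neg]
    have hZj := lift_je hb hγ D hZ' hx' hc hxJ'
    have hZE := hE _ hZj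
    have hZp : (Z + (c / 2) • je γ J v β) * p = p * (Z + (c / 2) • je γ J v β) := by
      have h1 := zz_vol hb hγ D (x := x - c • J) hc hxJ' hp1 hp2
      have h2 := zz_lift hb hγ D hx'
      have h3 := hp3 (Z + (c / 2) • je γ J v β - zz γ J v β (x - c • J)) (by
        intro t
        have e1 := hZ' t
        have e2 := h2 t
        rw [← e2] at e1
        rw [sub_mul, mul_sub]
        exact sub_eq_sub_iff_sub_eq_sub.1 e1)
      rw [sub_mul, mul_sub, h1] at h3
      exact sub_left_injective h3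
    have hZP : (Z + (c / 2) • je γ J v β) * (p * E) = p * E * (Z + (c / 2) • je γ J v β) := by
      rw [← mul_assoc, hZp, mul_assoc, hZE, mul_assoc]
    rw [add_mul, mul_add, smul_mul_assoc, mul_smul_comm, ← mul_assoc (je γ J v β), hpj, neg_mul,
      mul_assoc p (je γ J v β) E, hjE, mul_assoc p E (je γ J v β), hEj, mul_zero, neg_zero,
      smul_zero, add_zero, add_zero] at hZP
    exact hZP
  · intro hall
    have hn : 0 < finrank ℝ V₀ := by
      rw [Nat.pos_iff_ne_zero]
      intro h0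
      have h1 : V₀ = ⊥ := Submodule.finrank_eq_zero.1 h0
      have h2 := hV.sup_eq_top
      rw [h1, Submodule.map_bot, sup_bot_eq] at h2
      exact bot_ne_top h2
    let i : Fin (finrank ℝ V₀) := ⟨0, hn⟩
    have h1 : sJ γ J (v i) (J (v i)) = (4 : ℝ) • ze γ J v i := by
      have h2 : J (J (v i)) = -v i := by
        have := congrArg (fun g : Module.End ℝ T => g (v i)) hb.sq
        simpa using this
      have h3 : γ (J (v i)) * γ (v i) = -(γ (v i) * γ (J (v i))) :=
        anti hγ (oJ' hb D i i)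
      unfold sJ sp ze
      rw [h2, map_neg, mul_neg, neg_mul, h3]
      module
    have h2 := hall (v i) (J (v i))
    rw [h1, smul_mul_assoc, mul_smul_comm] at h2
    have h3 : ze γ J v i * (p * E) = p * E * ze γ J v i :=
      smul_right_injective _ (by norm_num : (4 : ℝ) ≠ 0) h2
    have h4 : ze γ J v i * (p * E) = -(p * E * ze γ J v i) := by
      rw [← mul_assoc, hpz, neg_mul, mul_assoc, hE _ (hzj i), mul_assoc]
    have h5 : ze γ J v i * (p * E) = 0 := by
      have h6 : ze γ J v i * (p * E) = -(ze γ J v i * (p * E)) := by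
        conv_lhs => rw [h4]
        rw [h3]
      have h7 : (2 : ℝ) • (ze γ J v i * (p * E)) = 0 := by
        rw [two_smul]
        nth_rewrite 1 [h6]
        rw [neg_add_cancel]
      exact (smul_eq_zero.1 h7).resolve_left two_ne_zero
    have h6 : p * E = 0 := by
      have h7 : ze γ J v i * (ze γ J v i * (p * E)) = 0 := by rw [h5, mul_zero]
      rw [← mul_assoc, ze_sq hb hγ D, neg_mul, smul_mul_assoc, one_mul, neg_eq_zero] at h7
      exact (smul_eq_zero.1 h7).resolve_left (mul_ne_zero (D.ne i) (D.ne i))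
    apply hE0
    have h7 : p' * (p * E) = 0 := by rw [h6, mul_zero]
    rwa [← mul_assoc, hp, one_mul] at h7

end Pool.Agent.W21.KU
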